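import Pool.Agent.H51.MF.Base

/-! # LI: Lemma I -/

set_option linter.style.haveILetI false
set_option linter.unusedSectionVars false
set_option autoImplicit false

namespace Pool.Agent.H51.MF

open Module Pool.Agent.H51.T2

universe u v

/-- The product of nonzero maps to two different simple objects is surjective. -/
theorem LI_surj {K : Type v} [Field K] {A : Type u} [Ring A] [Algebra K A] {f₁ : TC K A}
    {N₁ N C : FM K A} (hN₁ : SimW f₁ N₁) (hN : SimW f₁ N) (hne : ¬ Nonempty (N ≃ₗ[A] N₁))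
    (hC : TT f₁.f C) (φ₁ : C →ₗ[A] N₁) (φ : C →ₗ[A] N) (h₁ : φ₁ ≠ 0) (h : φ ≠ 0) :
    Function.Surjective (φ₁.prod φ) := by
  have hs₁ : Function.Surjective φ₁ := by
    rw [← LinearMap.range_eq_top]
    rcases hN₁.2.2 _ (inW_range hC hN₁.1 φ₁) with h2 | h2
    · exact absurd (LinearMap.range_eq_bot.1 h2) h₁
    · exact h2
  have hs : Function.Surjective φ := by
    rw [← LinearMap.range_eq_top]
    rcases hN.2.2 _ (inW_range hC hN.1 φ) with h2 | h2
    · exact absurd (LinearMap.range_eq_bot.1 h2) h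
    · exact h2
  have hS : TT f₁.f (C.sub (LinearMap.ker φ₁)) := hC.ker (φ := φ₁) hN₁.1.2
  let ψ : (C.sub (LinearMap.ker φ₁)) →ₗ[A] N := φ ∘ₗ (LinearMap.ker φ₁).subtype
  rcases hN.2.2 _ (inW_range hS hN.1 ψ) with h2 | h2
  · exfalso
    have h3 : ψ = 0 := LinearMap.range_eq_bot.1 h2
    have h4 : LinearMap.ker φ₁ ≤ LinearMap.ker φ := by
      intro x hx
      have := LinearMap.congr_fun h3 ⟨x, hx⟩
      exact this
    let e : (C ⧸ LinearMap.ker φ₁) ≃ₗ[A] N₁ := LinearMap.quotKerEquivOfSurjective φ₁ hs₁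
    let θ : N₁ →ₗ[A] N := (LinearMap.ker φ₁).liftQ φ h4 ∘ₗ e.symm.toLinearMap
    have hθ : ∀ x, θ (φ₁ x) = φ x := by
      intro x
      have h5 : e.symm (φ₁ x) = Submodule.Quotient.mk x := by
        rw [LinearEquiv.symm_apply_eq]
        rfl
      show (LinearMap.ker φ₁).liftQ φ h4 (e.symm (φ₁ x)) = φ x
      rw [h5]
      rfl
    have hθs : Function.Surjective θ := by
      intro y
      obtain ⟨x, rfl⟩ := hs y
      exact ⟨φ₁ x, hθ x⟩
    rcases hN₁.2.2 _ (inW_ker hN₁.1 hN.1 θ) with h6 | h6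
    · exact hne ⟨(LinearEquiv.ofBijective θ ⟨LinearMap.ker_eq_bot.1 h6, hθs⟩).symm⟩
    · apply h
      ext x
      rw [← hθ x]
      have : φ₁ x ∈ LinearMap.ker θ := by rw [h6]; trivial
      exact this
  · intro y
    obtain ⟨x, hx⟩ := hs₁ y.1
    have h3 : y.2 - φ x ∈ LinearMap.range ψ := by rw [h2]; trivial
    obtain ⟨z, hz⟩ := h3
    refine ⟨x + z.1, ?_⟩
    have h4 : φ₁ z.1 = 0 := z.2
    have h5 : φ z.1 = y.2 - φ x := hz
    refine Prod.ext ?_ ?_
    · simp [hx, h4]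
    · simp [h5]

/-- The maps considered in the proof of Lemma I. -/
structure LIG {K : Type v} [Field K] {A : Type u} [Ring A] [Algebra K A] (f₁ : TC K A)
    (N₁ : FM K A) (g : TC K A) : Prop where
  rig : Rigid g.f
  up : ∀ X : FM K A, TT f₁.f X → TT g.f X
  ez : EZero f₁.f g.f
  hom : ¬ HH g.f N₁

theorem LI_step {K : Type v} [Field K] {A : Type u} [Ring A] [Algebra K A] (hFIT : S_FIT K A)
    {f₁ : TC K A} {N₁ N : FM K A} (hN₁ : SimW f₁ N₁) (hN : SimW f₁ N)
    (hne : ¬ Nonempty (N ≃ₗ[A] N₁)) {g : TC K A} (hg : LIG f₁ N₁ g) (hgN : ¬ HH g.f N) :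
    ∃ g₁ : TC K A, LIG f₁ N₁ g₁ ∧ g₁.size < g.size := by
  have h1 := hg.hom
  unfold HH at h1 hgN
  push Not at h1 hgN
  obtain ⟨l₁, hl₁, hl₁0⟩ := h1
  obtain ⟨l, hl, hl0⟩ := hgN
  -- the cokernel
  let q : g.Q →ₗ[A] g.C := (LinearMap.range g.f).mkQ
  have hq : Function.Surjective q := Submodule.mkQ_surjective _
  have hC : TT f₁.f g.C := hg.ez.tt
  have hk₁ : LinearMap.range g.f ≤ LinearMap.ker l₁ := by
    rintro _ ⟨x, rfl⟩
    exact LinearMap.congr_fun hl₁ x
  have hk : LinearMap.range g.f ≤ LinearMap.ker l := by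
    rintro _ ⟨x, rfl⟩
    exact LinearMap.congr_fun hl x
  let φ₁ : g.C →ₗ[A] N₁ := (LinearMap.range g.f).liftQ l₁ hk₁
  let φ : g.C →ₗ[A] N := (LinearMap.range g.f).liftQ l hk
  have hφ₁ : ∀ x, φ₁ (q x) = l₁ x := fun x => rfl
  have hφ : ∀ x, φ (q x) = l x := fun x => rfl
  have hφ₁0 : φ₁ ≠ 0 := by
    intro h
    apply hl₁0
    ext x
    rw [← hφ₁, h]
    rfl
  have hφ0 : φ ≠ 0 := by
    intro h
    apply hl0
    ext x
    rw [← hφ, h]
    rfl
  have hπ := LI_surj hN₁ hN hne hC φ₁ φ hφ₁0 hφ0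
  let π : g.C →ₗ[A] (N₁.prod N) := φ₁.prod φ
  let L : g.Q →ₗ[A] (N₁.prod N) := l₁.prod l
  have hLπ : ∀ x, L x = π (q x) := fun x => rfl
  have hL : Function.Surjective L := by
    intro y
    obtain ⟨z, hz⟩ := hπ y
    obtain ⟨x, rfl⟩ := hq z
    exact ⟨x, hz⟩
  let L0 : g.Q →ₗ[A] (N₁.prod N) := l₁.prod 0
  obtain ⟨t0, ht0⟩ := Module.projective_lifting_property L L0 hL
  have ht0' : ∀ x, L (t0 x) = L0 x := fun x => LinearMap.congr_fun ht0 x
  -- correction
  have hker : TT g.f (g.C.sub (LinearMap.ker π)) := by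
    apply hg.up
    exact hC.ker (φ := π) (inW_prod hN₁.1 hN.1).2
  have hmem : ∀ x, (q ∘ₗ t0 ∘ₗ g.f) x ∈ LinearMap.ker π := by
    intro x
    rw [LinearMap.mem_ker]
    show π (q (t0 (g.f x))) = 0
    rw [← hLπ, ht0']
    show ((l₁ (g.f x), (0 : N)) : N₁ × N) = 0
    have : l₁ (g.f x) = 0 := LinearMap.congr_fun hl₁ x
    rw [this]
    rfl
  obtain ⟨m, hm⟩ := hker (LinearMap.codRestrict (LinearMap.ker π) (q ∘ₗ t0 ∘ₗ g.f) hmem)
  obtain ⟨m', hm'⟩ := Module.projective_lifting_property q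
    ((LinearMap.ker π).subtype ∘ₗ m) hq
  have hm'' : ∀ x, q (m' x) = (m x).1 := fun x => LinearMap.congr_fun hm' x
  let t : g.Q →ₗ[A] g.Q := t0 - m'
  have hLt : ∀ x, L (t x) = L0 x := by
    intro x
    have h2 : L (m' x) = 0 := by
      rw [hLπ, hm'']
      exact (m x).2
    show L (t0 x - m' x) = L0 x
    rw [map_sub, ht0', h2, sub_zero]
  have htf : ∀ x, (t ∘ₗ g.f) x ∈ LinearMap.range g.f := by
    intro x
    have h2 : q (t (g.f x)) = 0 := by
      show q (t0 (g.f x) - m' (g.f x)) = 0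
      rw [map_sub, hm'']
      have h3 := congrArg Subtype.val (LinearMap.congr_fun hm x)
      have h4 : q (t0 (g.f x)) = (m (g.f x)).1 := h3
      rw [h4, sub_self]
    exact (Submodule.Quotient.mk_eq_zero _).1 h2
  obtain ⟨s, hs⟩ := Module.projective_lifting_property g.f.rangeRestrict
    ((t ∘ₗ g.f).codRestrict (LinearMap.range g.f) htf) g.f.surjective_rangeRestrict
  have hst : g.f ∘ₗ s = t ∘ₗ g.f := by
    ext x
    exact congrArg Subtype.val (LinearMap.congr_fun hs x)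
  obtain ⟨M, g₀, g₁, eP, eQ, h5, h6, hsize, h7, h8⟩ := hFIT g s t hst
  have hg₀ : g₀.size ≠ 0 := by
    intro h0
    have hb := (h8 h0).2
    obtain ⟨y, hy⟩ := @exists_ne N hN.2.1 (0 : N)
    obtain ⟨x, hx⟩ := hL (0, y)
    obtain ⟨x', rfl⟩ := hb.2 x
    rw [hLt] at hx
    exact hy (congrArg Prod.snd hx).symm
  have hiso : Iso g.f (g₀.add g₁).f := by
    refine ⟨eP, eQ, ?_⟩
    ext x
    · exact (congrArg Prod.fst (h5 x)).symm
    · exact (congrArg Prod.snd (h5 x)).symm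
  refine ⟨g₁, ⟨?_, ?_, ?_, ?_⟩, by omega⟩
  · have h9 : Rigid (g₀.add g₁).f := hg.rig.iso hiso
    have h10 : EZero g₁.f (g₀.add g₁).f := EZero.of_prod_left_snd h9
    exact EZero.of_prod_right_snd h10
  · intro X hX
    exact (tt_addTC.1 (tt_isoTC hiso (hg.up X hX))).2
  · have h9 : EZero f₁.f (g₀.add g₁).f := hg.ez.iso (Iso.refl _) hiso
    exact EZero.of_prod_right_snd h9
  · intro hH
    let l' : g₁.Q →ₗ[A] N₁ := l₁ ∘ₗ eQ.symm.toLinearMap ∘ₗ LinearMap.inr A g₀.Q g₁.Q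
    have h9 : l' = 0 := by
      apply hH
      ext p
      have h10 := h5 (eP.symm (0, p))
      rw [LinearEquiv.apply_symm_apply, map_zero] at h10
      have h11 : eQ.symm (0, g₁.f p) = g.f (eP.symm (0, p)) := by
        rw [LinearEquiv.symm_apply_eq, h10]
      show l₁ (eQ.symm (0, g₁.f p)) = 0
      rw [h11]
      exact LinearMap.congr_fun hl₁ _
    apply hl₁0
    have h10 : ∀ x, l₁ (t x) = l₁ x := fun x => congrArg Prod.fst (hLt x)
    have h11 : ∀ (n : ℕ) x, l₁ ((t ^ n) x) = l₁ x := by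
      intro n
      induction n with
      | zero => intro x; rfl
      | succ n ih =>
        intro x
        rw [pow_succ, Module.End.mul_apply, ih, h10]
    ext x
    rw [← h11 M x]
    have h12 : (t ^ M) x = eQ.symm (0, (eQ ((t ^ M) x)).2) := by
      rw [LinearEquiv.eq_symm_apply]
      exact Prod.ext (h6 x) rfl
    rw [h12]
    exact LinearMap.congr_fun h9 _

theorem s_LI (K : Type v) [Field K] (A : Type u) [Ring A] [Algebra K A] (hSTAR : S_STAR K A)
    (hFIT : S_FIT K A) : S_LI K A := by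
  intro hinf hfin hHR c f₁ N₁ hf₁ hN₁
  classical
  let P0 : FM K A := { C := A }
  haveI : Module.Projective A P0 := inferInstanceAs (Module.Projective A A)
  let h : TC K A := { P := FM.zero, Q := P0, hP := projective_punit, f := 0 }
  obtain ⟨n, g, hg1, hg2, hg3, hg4⟩ := hSTAR hinf hHR f₁ h hf₁
  have hex : ∃ k : ℕ, ∃ g : TC K A, LIG f₁ N₁ g ∧ g.size = k := by
    refine ⟨_, g, ⟨hg1, fun X hX => hg4 X hX ?_, hg2.1, ?_⟩, rfl⟩
    · intro k
      refine ⟨0, ?_⟩
      ext x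
      rw [show x = 0 from rfl, map_zero, map_zero]
    · intro hH
      have h1 : g.cl N₁ ≤ 0 := hh_cl hH
      rw [hg3, inW_cl hN₁.1, mul_zero, zero_add] at h1
      have h2 : h.cl N₁ = (hd P0 N₁ : ℤ) - hd (FM.zero : FM K A) N₁ := rfl
      have h3 : hd (FM.zero : FM K A) N₁ = 0 := by
        haveI : Subsingleton ((FM.zero : FM K A) →ₗ[A] N₁) := ⟨fun a b => by
          ext x
          rw [show x = 0 from rfl, map_zero, map_zero]⟩
        exact Module.finrank_zero_of_subsingleton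
      have h4 : 0 < hd P0 N₁ := by
        haveI : FiniteDimensional K (P0 →ₗ[A] N₁) := finite_hom
        obtain ⟨x, hx⟩ := @exists_ne N₁ hN₁.2.1 (0 : N₁)
        haveI : Nontrivial (P0 →ₗ[A] N₁) := ⟨⟨LinearMap.toSpanSingleton A N₁ x, 0, fun h5 => by
          have h6 := LinearMap.congr_fun h5 (1 : A)
          simp only [LinearMap.toSpanSingleton_apply, one_smul, LinearMap.zero_apply] at h6
          exact hx h6⟩⟩
        exact Module.finrank_pos
      rw [h2, h3] at h1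
      push_cast at h1
      omega
  obtain ⟨g, hg, hk⟩ := Nat.find_spec hex
  have hmin : ∀ g' : TC K A, LIG f₁ N₁ g' → g.size ≤ g'.size := by
    intro g' hg'
    rw [hk]
    exact Nat.find_min' hex ⟨g', hg', rfl⟩
  obtain ⟨a, ha⟩ := c.full g.P
  obtain ⟨b, hb⟩ := c.full g.Q
  let η : Fin c.n → ℤ := fun i => (b i : ℤ) - a i
  have hη : ∀ X : FM K A, η ⬝ᵥ c.v X = g.cl X := by
    intro X
    simp only [TC.cl, ha, hb, dotProduct, η, Coo.v]
    push_cast
    rw [← Finset.sum_sub_distrib]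
    refine Finset.sum_congr rfl fun i _ => ?_
    ring
  refine ⟨η, ?_, fun N hN hne => ?_⟩
  · rw [hη]
    have h1 : TT g.f N₁ := hg.up N₁ hN₁.1.1
    refine lt_of_le_of_ne (tt_cl h1) (fun h2 => hg.hom (hh_of_tt h1 h2.symm))
  · rw [hη]
    have h1 : TT g.f N := hg.up N hN.1.1
    have h2 : HH g.f N := by
      by_contra h3
      obtain ⟨g₁, hg₁, hlt⟩ := LI_step hFIT hN₁ hN hne hg h3
      have := hmin g₁ hg₁
      omega
    exact inW_cl ⟨h1, h2⟩

end Pool.Agent.H51.MF
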